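import Pool.Agent.H.MP_1639aa_nt.Core

set_option autoImplicit false

namespace Pool.Agent.H.MP_1639aa_nt

open Filter

/-- The multiplier `t = A q + j p`, `A = ⌈q^(w-1)⌉ + (0 or 1)`. -/
noncomputable def mult (w : ℝ) (j : ℤ) (b : Bool) (x : ℤ × ℤ) : ℤ :=
  (⌈(x.2 : ℝ) ^ (w - 1)⌉ + (if b then 1 else 0)) * x.2 + j * x.1

noncomputable def step (w : ℝ) (j : ℤ) (b : Bool) (x : ℤ × ℤ) : ℤ × ℤ :=
  (x.1 * mult w j b x - 1, x.2 * mult w j b x)

noncomputable def sq (w : ℝ) (j : ℤ) (s : ℕ → Bool) : ℕ → ℤ × ℤ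
  | 0 => (3, 8)
  | k + 1 => step w j (s k) (sq w j s k)

/-- The invariant. -/
def Inv (j : ℤ) (x : ℤ × ℤ) : Prop :=
  8 ≤ x.2 ∧ 0 < x.1 ∧ 8 * x.1 ≤ 3 * x.2 ∧ IsCoprime x.1 x.2 ∧ (j = 2 → x.2 ∣ x.1 ^ 2 - 1)

theorem step_bounds {w : ℝ} (hw : 3 ≤ w) {j : ℤ} (hj : j = 0 ∨ j = 2) (b : Bool) {x : ℤ × ℤ}
    (h : Inv j x) : (x.2 : ℝ) ^ (w + 1) ≤ (step w j b x).2 ∧
      ((step w j b x).2 : ℝ) ≤ 5 * (x.2 : ℝ) ^ (w + 1) ∧ 1 ≤ mult w j b x := by
  obtain ⟨p, q⟩ := x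
  obtain ⟨h1, h2, h3, -, -⟩ := h
  simp only at h1 h2 h3
  have hq : (8 : ℝ) ≤ q := by exact_mod_cast h1
  have hp : (0 : ℝ) < p := by exact_mod_cast h2
  have hpq : (8 : ℝ) * p ≤ 3 * q := by exact_mod_cast h3
  have hq0 : (0 : ℝ) < q := by linarith
  have e : (q : ℝ) ^ (w + 1) = (q : ℝ) ^ (w - 1) * (q : ℝ) ^ 2 := by
    rw [← Real.rpow_natCast, ← Real.rpow_add hq0]; congr 1; push_cast; ring
  have hy : (1 : ℝ) ≤ (q : ℝ) ^ (w - 1) := Real.one_le_rpow (by linarith) (by linarith)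
  have c1 := Int.le_ceil ((q : ℝ) ^ (w - 1))
  have c2 := Int.ceil_lt_add_one ((q : ℝ) ^ (w - 1))
  have hj0 : (0 : ℝ) ≤ j := by rcases hj with rfl | rfl <;> norm_num
  have hj2 : (j : ℝ) ≤ 2 := by rcases hj with rfl | rfl <;> norm_num
  have hb0 : (0 : ℝ) ≤ ((if b then 1 else 0 : ℤ) : ℝ) := by cases b <;> simp
  have hb1 : ((if b then 1 else 0 : ℤ) : ℝ) ≤ 1 := by cases b <;> simp
  have hm : ((mult w j b (p, q) : ℤ) : ℝ) =
      ((⌈(q : ℝ) ^ (w - 1)⌉ : ℝ) + ((if b then 1 else 0 : ℤ) : ℝ)) * q + j * p := by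
    simp only [mult, Int.cast_add, Int.cast_mul]
  have hs : ((step w j b (p, q)).2 : ℝ) = q * ((mult w j b (p, q) : ℤ) : ℝ) := by
    simp only [step, Int.cast_mul]
  set y := (q : ℝ) ^ (w - 1)
  set A := (⌈y⌉ : ℝ) + ((if b then 1 else 0 : ℤ) : ℝ)
  have hA1 : y ≤ A := by linarith
  have hA2 : A ≤ 3 * y := by linarith
  have hjp : 0 ≤ (j : ℝ) * p := by positivity
  have hjp2 : (j : ℝ) * p ≤ q := by nlinarith
  refine ⟨?_, ?_, ?_⟩
  · rw [hs, hm, e]; nlinarith [mul_le_mul_of_nonneg_right hA1 (sq_nonneg (q : ℝ))]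
  · rw [hs, hm, e]
    nlinarith [mul_le_mul_of_nonneg_right hA2 (sq_nonneg (q : ℝ)),
      mul_le_mul_of_nonneg_right hy (sq_nonneg (q : ℝ))]
  · have : (1 : ℝ) ≤ ((mult w j b (p, q) : ℤ) : ℝ) := by rw [hm]; nlinarith
    exact_mod_cast this

theorem step_q4 {w : ℝ} (hw : 3 ≤ w) {j : ℤ} (hj : j = 0 ∨ j = 2) (b : Bool) {x : ℤ × ℤ}
    (h : Inv j x) : (x.2 : ℝ) ^ 4 ≤ (step w j b x).2 := by
  refine le_trans ?_ (step_bounds hw hj b h).1
  have hq : (8 : ℝ) ≤ x.2 := by exact_mod_cast h.1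
  have : (x.2 : ℝ) ^ (4 : ℝ) ≤ (x.2 : ℝ) ^ (w + 1) :=
    Real.rpow_le_rpow_of_exponent_le (by linarith) (by linarith)
  rwa [show (4 : ℝ) = ((4 : ℕ) : ℝ) by norm_num, Real.rpow_natCast] at this

theorem step_inv {w : ℝ} (hw : 3 ≤ w) {j : ℤ} (hj : j = 0 ∨ j = 2) (b : Bool) {x : ℤ × ℤ}
    (h : Inv j x) : Inv j (step w j b x) := by
  have h4 := step_q4 hw hj b h
  have ht := (step_bounds hw hj b h).2.2
  obtain ⟨p, q⟩ := x
  obtain ⟨h1, h2, h3, h5, h6⟩ := h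
  simp only at h1 h2 h3 h5 h6
  obtain ⟨A, hA⟩ : ∃ A, mult w j b (p, q) = A * q + j * p := ⟨_, rfl⟩
  have hq8 : (8 : ℝ) ≤ q := by exact_mod_cast h1
  have hq' : 64 ≤ q * mult w j b (p, q) := by
    have : (64 : ℝ) ≤ ((step w j b (p, q)).2 : ℝ) := by
      refine le_trans ?_ h4
      simp only
      nlinarith [pow_le_pow_left₀ (by norm_num : (0 : ℝ) ≤ 8) hq8 4]
    exact_mod_cast this
  have hdv : j = 2 → q * mult w j b (p, q) ∣ (p * mult w j b (p, q) - 1) ^ 2 - 1 := by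
    intro hj2
    obtain ⟨r, hr⟩ := h6 hj2
    refine ⟨p * (A * p + 2 * r), ?_⟩
    rw [hA, hj2]
    linear_combination (2 * p * (A * q + 2 * p)) * hr
  refine ⟨?_, ?_, ?_, ?_, hdv⟩
  · simp only [step]; linarith
  · simp only [step]
    have : 2 ≤ mult w j b (p, q) := by
      by_contra hc
      have : mult w j b (p, q) = 1 := by omega
      have h7 : (q : ℝ) ^ 4 ≤ q := by simpa [step, this] using h4
      nlinarith [pow_le_pow_left₀ (by norm_num : (0 : ℝ) ≤ 8) hq8 3]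
    nlinarith
  · simp only [step]; nlinarith
  · simp only [step]
    rcases hj with hj | hj
    · refine ⟨-(p * A * q + 1), p ^ 2 * A, ?_⟩
      rw [hA, hj]; ring
    · obtain ⟨r, hr⟩ := hdv hj
      exact ⟨p * mult w j b (p, q) - 1, -r, by linear_combination hr⟩

theorem step_x {w : ℝ} (hw : 3 ≤ w) {j : ℤ} (hj : j = 0 ∨ j = 2) (b : Bool) {x : ℤ × ℤ}
    (h : Inv j x) : ((step w j b x).1 : ℝ) / (step w j b x).2 =
      (x.1 : ℝ) / x.2 - 1 / ((step w j b x).2 : ℝ) := by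
  have ht : (1 : ℝ) ≤ ((mult w j b x : ℤ) : ℝ) := by exact_mod_cast (step_bounds hw hj b h).2.2
  have hq : (8 : ℝ) ≤ x.2 := by exact_mod_cast h.1
  simp only [step]
  push_cast
  field_simp

theorem sq_inv {w : ℝ} (hw : 3 ≤ w) {j : ℤ} (hj : j = 0 ∨ j = 2) (s : ℕ → Bool) (k : ℕ) :
    Inv j (sq w j s k) := by
  induction k with
  | zero => exact ⟨le_refl _, by norm_num [sq], by norm_num [sq], ⟨3, -1, by norm_num [sq]⟩,
      fun _ => by norm_num [sq]⟩
  | succ k ih => exact step_inv hw hj _ ih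

noncomputable def zeta (w : ℝ) (j : ℤ) (s : ℕ → Bool) : ℝ :=
  ⨅ k, ((sq w j s k).1 : ℝ) / (sq w j s k).2

theorem good {w : ℝ} (hw : 3 ≤ w) {j : ℤ} (hj : j = 0 ∨ j = 2) (s : ℕ → Bool) :
    Good w (zeta w j s) (fun k => (sq w j s k).1) (fun k => (sq w j s k).2) := by
  have I := sq_inv hw hj s
  set x : ℕ → ℝ := fun k => ((sq w j s k).1 : ℝ) / (sq w j s k).2 with hx
  set q : ℕ → ℝ := fun k => ((sq w j s k).2 : ℝ) with hq
  have q8 : ∀ k, 8 ≤ q k := fun k => by simp only [hq]; exact_mod_cast (I k).1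
  have q4 : ∀ k, q k ^ 4 ≤ q (k + 1) := fun k => step_q4 hw hj _ (I k)
  have q2 : ∀ k, 2 * q k ≤ q (k + 1) := fun k => by
    nlinarith [q4 k, q8 k, pow_le_pow_left₀ (by norm_num : (0 : ℝ) ≤ 8) (q8 k) 3]
  have hxs : ∀ k, x (k + 1) = x k - 1 / q (k + 1) := fun k => step_x hw hj _ (I k)
  have hanti : Antitone x := antitone_nat_of_succ_le fun k => by
    rw [hxs]; have : 0 < 1 / q (k + 1) := by have := q8 (k + 1); positivity
    linarith
  have hmono : Monotone fun k => x k - 2 / q (k + 1) := monotone_nat_of_le_succ fun k => by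
    rw [hxs]
    have h1 := q8 (k + 1)
    have : 2 / q (k + 1 + 1) ≤ 1 / q (k + 1) := by
      rw [div_le_div_iff₀ (by linarith [q8 (k + 1 + 1)]) (by linarith)]
      linarith [q2 (k + 1)]
    have e : 2 / q (k + 1) = 2 * (1 / q (k + 1)) := by ring
    linarith
  have hlow : ∀ k m, x k - 2 / q (k + 1) ≤ x m := by
    intro k m
    rcases le_total k m with h | h
    · have h1 := hmono h
      have : 0 < 2 / q (m + 1) := by have := q8 (m + 1); positivity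
      simp only at h1
      linarith
    · have h1 := hanti h
      have : 0 < 2 / q (k + 1) := by have := q8 (k + 1); positivity
      linarith
  have hz1 : ∀ k, zeta w j s ≤ x k := fun k => ciInf_le ⟨_, by rintro _ ⟨m, rfl⟩; exact hlow 0 m⟩ k
  have hz2 : ∀ k, x k - 2 / q (k + 1) ≤ zeta w j s := fun k => le_ciInf (hlow k)
  have hx0 : x 0 = 3 / 8 := by simp [hx, sq]
  refine ⟨fun k => (I k).2.2.2.1, fun k => (I k).1, fun k => (step_bounds hw hj _ (I k)).1,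
    fun k => (step_bounds hw hj _ (I k)).2.1, fun k => ?_, fun k => ?_, ?_, fun k => ?_⟩
  · have := hz1 (k + 1)
    rw [hxs] at this
    change 1 / q (k + 1) ≤ x k - _
    linarith
  · have := hz2 k
    change x k - _ ≤ 2 / q (k + 1)
    linarith
  · have h1 := hz2 0
    have : 2 / q (0 + 1) ≤ 1 / 8 := by
      rw [div_le_div_iff₀ (by linarith [q8 (0 + 1)]) (by norm_num)]
      linarith [q2 0, q8 0]
    linarith
  · have := hanti (Nat.zero_le k)
    change x k ≤ _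
    linarith

theorem sq_congr (w : ℝ) (j : ℤ) (s s' : ℕ → Bool) (k : ℕ) (h : ∀ m < k, s m = s' m) :
    sq w j s k = sq w j s' k := by
  induction k with
  | zero => rfl
  | succ k ih =>
    simp only [sq]
    rw [ih fun m hm => h m (by omega), h k (by omega)]

theorem zeta_lt {w : ℝ} (hw : 3 ≤ w) {j : ℤ} (hj : j = 0 ∨ j = 2) (s s' : ℕ → Bool) (k : ℕ)
    (h : sq w j s k = sq w j s' k) (h1 : s k = false) (h2 : s' k = true) :
    zeta w j s < zeta w j s' := by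
  have G := good hw hj s
  have G' := good hw hj s'
  have a1 := G.a1 k
  have a2 := G'.a2 (k + 1)
  have q4 := G'.q4 hw (k + 1)
  have hx := step_x hw hj (s' k) (sq_inv hw hj s' k)
  have hq := G.qR (k + 1)
  have hq0 := G.qR k
  have hQ : ((sq w j s' (k + 1)).2 : ℝ) = (sq w j s (k + 1)).2 + ((sq w j s k).2 : ℝ) ^ 2 := by
    simp only [sq, step, mult, h1, h2, ← h]
    push_cast
    ring
  change ((sq w j s' (k + 1)).1 : ℝ) / (sq w j s' (k + 1)).2 =
    ((sq w j s' k).1 : ℝ) / (sq w j s' k).2 - 1 / ((sq w j s' (k + 1)).2 : ℝ) at hx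
  rw [← h] at hx
  set Q := ((sq w j s (k + 1)).2 : ℝ)
  set Q' := ((sq w j s' (k + 1)).2 : ℝ)
  set Q'' := ((sq w j s' (k + 1 + 1)).2 : ℝ)
  have hQ1 : Q + 1 ≤ Q' := by nlinarith
  have h3 : 2 / Q'' ≤ 2 / Q' ^ 4 :=
    div_le_div_of_nonneg_left (by norm_num) (by have : 0 < Q' := by linarith
                                                positivity) q4
  have h4 : 2 / Q' ^ 4 < 1 / Q - 1 / Q' := by
    have hQ0 : 0 < Q := by linarith
    have hQ0' : 0 < Q' := by linarith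
    rw [div_sub_div _ _ hQ0.ne' hQ0'.ne', div_lt_div_iff₀ (by positivity) (by positivity)]
    have h5 : 2 * (Q * Q') < Q' ^ 4 := by
      have : Q * Q' ≤ Q' ^ 2 := by nlinarith
      have h6 : 2 < Q' ^ 2 := by nlinarith
      nlinarith
    nlinarith [pow_pos hQ0' 4]
  linarith

theorem zeta_inj {w : ℝ} (hw : 3 ≤ w) {j : ℤ} (hj : j = 0 ∨ j = 2) :
    Function.Injective (zeta w j) := by
  intro s s' h
  by_contra hne
  have hex : ∃ k, s k ≠ s' k := Function.ne_iff.1 hne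
  classical
  have h1 := Nat.find_spec hex
  have h2 := sq_congr w j s s' (Nat.find hex) fun m hm => not_not.1 (Nat.find_min hex hm)
  cases h3 : s (Nat.find hex) <;> cases h4 : s' (Nat.find hex)
  · exact h1 (h3.trans h4.symm)
  · exact (zeta_lt hw hj s s' _ h2 h3 h4).ne h
  · exact (zeta_lt hw hj s' s _ h2.symm h4 h3).ne h.symm
  · exact h1 (h3.trans h4.symm)

theorem exists_transc {w : ℝ} (hw : 3 ≤ w) {j : ℤ} (hj : j = 0 ∨ j = 2) :
    ∃ s, Transcendental ℚ (zeta w j s) := by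
  by_contra hc
  push Not at hc
  have h1 : ∀ s, zeta w j s ∈ {x : ℝ | IsAlgebraic ℚ x} := fun s => not_not.1 (hc s)
  have h2 := (Algebraic.countable ℚ ℝ).to_subtype
  have h3 : Countable (ℕ → Bool) :=
    Function.Injective.countable (f := fun s => (⟨zeta w j s, h1 s⟩ : {x : ℝ | IsAlgebraic ℚ x}))
      fun s s' h => zeta_inj hw hj (congrArg Subtype.val h)
  obtain ⟨f, hf⟩ := exists_surjective_nat (ℕ → Bool)
  obtain ⟨n, hn⟩ := hf fun n => !f n n
  have := congrFun hn n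
  simp at this

/-- Both constructions, `ρ = 0` and `ρ = 1`. -/
theorem exists_good {w : ℝ} (hw : 3 ≤ w) (ρ : ℝ) (hρ : ρ = 0 ∨ ρ = 1) :
    ∃ (ζ : ℝ) (p q : ℕ → ℤ), Transcendental ℚ ζ ∧ Good w ζ p q ∧
      (∀ k, ∃ R s : ℤ, p k ^ 2 = R + q k * s ∧ 1 ≤ R ∧ (R : ℝ) ≤ (q k : ℝ) ^ ρ) ∧
      ∀ k, ∀ s : ℤ, (q (k + 1) : ℝ) ^ ρ / 8 ≤ |((p (k + 1) ^ 2 + q (k + 1) * s : ℤ) : ℝ)| := by
  rcases hρ with rfl | rfl
  · have hj : (2 : ℤ) = 0 ∨ (2 : ℤ) = 2 := Or.inr rfl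
    obtain ⟨s, hs⟩ := exists_transc hw hj
    refine ⟨_, _, _, hs, good hw hj s, fun k => ?_, fun k t => ?_⟩
    · obtain ⟨r, hr⟩ := (sq_inv hw hj s k).2.2.2.2 rfl
      exact ⟨1, r, by linear_combination hr, le_refl _, by simp⟩
    · obtain ⟨r, hr⟩ := (sq_inv hw hj s (k + 1)).2.2.2.2 rfl
      have h8 := (sq_inv hw hj s (k + 1)).1
      have hne : (sq w 2 s (k + 1)).1 ^ 2 + (sq w 2 s (k + 1)).2 * t ≠ 0 := by
        intro h0
        have : (sq w 2 s (k + 1)).2 ∣ 1 := ⟨-(r + t), by linear_combination h0 - hr⟩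
        have := Int.le_of_dvd one_pos this
        omega
      have : (1 : ℝ) ≤ |(((sq w 2 s (k + 1)).1 ^ 2 + (sq w 2 s (k + 1)).2 * t : ℤ) : ℝ)| := by
        exact_mod_cast Int.one_le_abs hne
      rw [Real.rpow_zero]; linarith
  · have hj : (0 : ℤ) = 0 ∨ (0 : ℤ) = 2 := Or.inl rfl
    obtain ⟨s, hs⟩ := exists_transc hw hj
    have G := good hw hj s
    refine ⟨_, _, _, hs, G, fun k => ?_, fun k t => ?_⟩
    · have hq : 0 < (sq w 0 s k).2 := by linarith [G.q8 k]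
      refine ⟨((sq w 0 s k).1 ^ 2 - 1) % (sq w 0 s k).2 + 1,
        ((sq w 0 s k).1 ^ 2 - 1) / (sq w 0 s k).2, ?_, ?_, ?_⟩
      · linear_combination -Int.emod_add_mul_ediv ((sq w 0 s k).1 ^ 2 - 1) (sq w 0 s k).2
      · linarith [Int.emod_nonneg ((sq w 0 s k).1 ^ 2 - 1) hq.ne']
      · rw [Real.rpow_one]
        have h9 := Int.emod_lt_of_pos ((sq w 0 s k).1 ^ 2 - 1) hq
        exact_mod_cast Int.add_one_le_of_lt h9
    · rw [Real.rpow_one]
      have h8 := G.q8 (k + 1)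
      have I := sq_inv hw hj s k
      have ht := (step_bounds hw hj (s k) I).2.2
      have hx : (1 : ℝ) / 4 ≤ ((sq w 0 s k).1 : ℝ) / (sq w 0 s k).2 := by
        linarith [G.z0, G.lt_x k]
      have hq0 := G.qpos k
      rw [le_div_iff₀ hq0] at hx
      have hx' : (sq w 0 s k).2 ≤ 4 * (sq w 0 s k).1 := by
        have : ((sq w 0 s k).2 : ℝ) ≤ 4 * (sq w 0 s k).1 := by linarith
        exact_mod_cast this
      have key : (sq w 0 s (k + 1)).2 ≤
          8 * |(sq w 0 s (k + 1)).1 ^ 2 + (sq w 0 s (k + 1)).2 * t| := by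
        obtain ⟨h1, h2, h3, -, -⟩ := I
        simp only [sq, step] at h8 ⊢
        obtain ⟨A, hA⟩ : ∃ A, mult w 0 (s k) (sq w 0 s k) = A * (sq w 0 s k).2 + 0 * (sq w 0 s k).1 :=
          ⟨_, rfl⟩
        generalize mult w 0 (s k) (sq w 0 s k) = T at *
        generalize (sq w 0 s k).1 = p at *
        generalize (sq w 0 s k).2 = q at *
        have e : (p * T - 1) ^ 2 + q * T * t = T * (q * (p ^ 2 * A + t) - 2 * p) + 1 := by
          rw [hA]; ring
        rw [e]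
        rcases le_or_gt 1 (p ^ 2 * A + t) with hm | hm
        · have h4 : q ≤ 4 * (q * (p ^ 2 * A + t) - 2 * p) := by nlinarith
          have := le_abs_self (T * (q * (p ^ 2 * A + t) - 2 * p) + 1)
          nlinarith
        · have h4 : 2 * (q * (p ^ 2 * A + t) - 2 * p) ≤ -q := by nlinarith
          have := neg_le_abs (T * (q * (p ^ 2 * A + t) - 2 * p) + 1)
          nlinarith
      have : ((sq w 0 s (k + 1)).2 : ℝ) ≤
          8 * |(((sq w 0 s (k + 1)).1 ^ 2 + (sq w 0 s (k + 1)).2 * t : ℤ) : ℝ)| := by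
        exact_mod_cast key
      linarith

end Pool.Agent.H.MP_1639aa_nt
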