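import Mathlib

set_option autoImplicit false

namespace Pool.Agent.H.MP_1639aa_nt

open Filter

/-- A real number with a regular sequence of very good rational approximations. -/
structure Good (w ζ : ℝ) (p q : ℕ → ℤ) : Prop where
  cop : ∀ k, IsCoprime (p k) (q k)
  q8 : ∀ k, 8 ≤ q k
  lo : ∀ k, (q k : ℝ) ^ (w + 1) ≤ q (k + 1)
  hi : ∀ k, (q (k + 1) : ℝ) ≤ 5 * (q k : ℝ) ^ (w + 1)
  a1 : ∀ k, 1 / (q (k + 1) : ℝ) ≤ (p k : ℝ) / q k - ζ
  a2 : ∀ k, (p k : ℝ) / q k - ζ ≤ 2 / (q (k + 1) : ℝ)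
  z0 : 1 / 4 ≤ ζ
  x1 : ∀ k, (p k : ℝ) / q k ≤ 3 / 8

variable {w ζ : ℝ} {p q : ℕ → ℤ}

namespace Good

theorem qR (G : Good w ζ p q) (k : ℕ) : (8 : ℝ) ≤ q k := by exact_mod_cast G.q8 k

theorem qpos (G : Good w ζ p q) (k : ℕ) : (0 : ℝ) < q k := by linarith [G.qR k]

theorem q1 (G : Good w ζ p q) (k : ℕ) : (1 : ℝ) ≤ q k := by linarith [G.qR k]

theorem lt_x (G : Good w ζ p q) (k : ℕ) : ζ < (p k : ℝ) / q k := by
  have := G.a1 k
  have h2 : 0 < 1 / (q (k + 1) : ℝ) := by have := G.qpos (k + 1); positivity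
  linarith

theorem z1 (G : Good w ζ p q) : ζ ≤ 3 / 8 := by linarith [G.lt_x 0, G.x1 0]

theorem q4 (G : Good w ζ p q) (hw : 3 ≤ w) (k : ℕ) : (q k : ℝ) ^ 4 ≤ q (k + 1) := by
  refine le_trans ?_ (G.lo k)
  have : (q k : ℝ) ^ (4 : ℝ) ≤ (q k : ℝ) ^ (w + 1) :=
    Real.rpow_le_rpow_of_exponent_le (G.q1 k) (by linarith)
  rwa [show (4 : ℝ) = ((4 : ℕ) : ℝ) by norm_num, Real.rpow_natCast] at this

theorem q_ge (G : Good w ζ p q) (hw : 3 ≤ w) (k : ℕ) : (k : ℝ) ≤ q k := by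
  induction k with
  | zero => simpa using (G.qpos 0).le
  | succ k ih =>
    have h := G.q4 hw k
    have h8 := G.qR k
    push_cast
    nlinarith [pow_le_pow_left₀ (by norm_num : (0 : ℝ) ≤ 8) h8 3]

theorem q_tendsto (G : Good w ζ p q) (hw : 3 ≤ w) : Tendsto (fun k => (q k : ℝ)) atTop atTop :=
  tendsto_atTop_mono (G.q_ge hw) tendsto_natCast_atTop_atTop

theorem d_le (G : Good w ζ p q) (k : ℕ) : (p k : ℝ) / q k - ζ ≤ 2 * (q k : ℝ) ^ (-(w + 1)) := by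
  refine (G.a2 k).trans ?_
  rw [Real.rpow_neg (G.qpos k).le, ← div_eq_mul_inv]
  have := Real.rpow_pos_of_pos (G.qpos k) (w + 1)
  exact div_le_div_of_nonneg_left (by norm_num) this (G.lo k)

theorem d_ge (G : Good w ζ p q) (k : ℕ) : (q k : ℝ) ^ (-(w + 1)) / 5 ≤ (p k : ℝ) / q k - ζ := by
  refine le_trans ?_ (G.a1 k)
  rw [Real.rpow_neg (G.qpos k).le]
  have h1 := Real.rpow_pos_of_pos (G.qpos k) (w + 1)
  have h2 := G.qpos (k + 1)
  have h3 := G.hi k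
  rw [div_le_div_iff₀ (by norm_num) h2, inv_mul_le_iff₀ h1]
  linarith

theorem eta_eq (G : Good w ζ p q) (k : ℕ) :
    (p k : ℝ) - q k * ζ = q k * ((p k : ℝ) / q k - ζ) := by
  have := G.qpos k
  field_simp

theorem qpow (G : Good w ζ p q) (k : ℕ) :
    (q k : ℝ) * (q k : ℝ) ^ (-(w + 1)) = (q k : ℝ) ^ (-w) := by
  have h := Real.rpow_add (G.qpos k) 1 (-(w + 1))
  rw [Real.rpow_one] at h
  rw [← h]; congr 1; ring

theorem eta_le (G : Good w ζ p q) (k : ℕ) : (p k : ℝ) - q k * ζ ≤ 2 * (q k : ℝ) ^ (-w) := by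
  rw [G.eta_eq, ← G.qpow k]
  nlinarith [G.d_le k, G.qpos k]

theorem eta_ge (G : Good w ζ p q) (k : ℕ) : (q k : ℝ) ^ (-w) / 5 ≤ (p k : ℝ) - q k * ζ := by
  rw [G.eta_eq, ← G.qpow k]
  nlinarith [G.d_ge k, G.qpos k]

/-- Comparison of a quadratic form value at `ζ` and at `p/q`. -/
theorem lip (G : Good w ζ p q) (k : ℕ) (a b c H : ℝ) (ha : |a| ≤ H) (hb : |b| ≤ H) :
    |(a * ((p k : ℝ) / q k) ^ 2 + b * ((p k : ℝ) / q k) + c) - (a * ζ ^ 2 + b * ζ + c)| ≤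
      4 * H * (q k : ℝ) ^ (-(w + 1)) := by
  have h0 := G.lt_x k
  have h1 := G.x1 k
  have h2 := G.z0
  have h3 := G.d_le k
  set x := (p k : ℝ) / q k
  have e : (a * x ^ 2 + b * x + c) - (a * ζ ^ 2 + b * ζ + c) = (x - ζ) * (a * (x + ζ) + b) := by
    ring
  have hH : 0 ≤ H := (abs_nonneg a).trans ha
  have h4 : |a * (x + ζ) + b| ≤ 2 * H := by
    refine (abs_add_le _ _).trans ?_
    rw [abs_mul, abs_of_pos (by linarith : 0 < x + ζ)]
    nlinarith [abs_nonneg a]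
  rw [e, abs_mul, abs_of_pos (by linarith : 0 < x - ζ)]
  calc (x - ζ) * |a * (x + ζ) + b| ≤ (2 * (q k : ℝ) ^ (-(w + 1))) * (2 * H) :=
        mul_le_mul h3 h4 (abs_nonneg _) (by linarith)
    _ = _ := by ring

theorem val_eq (G : Good w ζ p q) (k : ℕ) (a b c : ℤ) :
    (a : ℝ) * ((p k : ℝ) / q k) ^ 2 + b * ((p k : ℝ) / q k) + c =
      ((a * p k ^ 2 + b * p k * q k + c * q k ^ 2 : ℤ) : ℝ) / (q k : ℝ) ^ 2 := by
  have := G.qpos k
  push_cast
  field_simp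

/-- Generic dichotomy. -/
theorem generic (G : Good w ζ p q) (hw : 3 ≤ w) (hw2 : 2 * (w + 1) ≤ w * (w - 1)) :
    ∃ c0 : ℝ, 0 < c0 ∧ ∀ (a b c : ℤ) (H : ℝ), 1 ≤ H → |(a : ℝ)| ≤ H → |(b : ℝ)| ≤ H →
      c0 * H ^ (-w) ≤ |(a : ℝ) * ζ ^ 2 + b * ζ + c| ∨
        ∃ k, a * p k ^ 2 + b * p k * q k + c * q k ^ 2 = 0 := by
  have hq0 := G.q1 0
  refine ⟨1 / (2 * (25 * 8 ^ w * (q 0 : ℝ) ^ 2)), by positivity, ?_⟩
  intro a b c H hH ha hb
  have hex : ∃ k, 8 * H ≤ (q k : ℝ) ^ (w - 1) := by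
    obtain ⟨k, hk⟩ := ((G.q_tendsto hw).eventually_ge_atTop (8 * H)).exists
    refine ⟨k, hk.trans ?_⟩
    have := Real.rpow_le_rpow_of_exponent_le (G.q1 k) (by linarith : (1 : ℝ) ≤ w - 1)
    rwa [Real.rpow_one] at this
  classical
  obtain ⟨k, hk, hmin⟩ : ∃ k, 8 * H ≤ (q k : ℝ) ^ (w - 1) ∧
      ∀ m < k, ¬ 8 * H ≤ (q m : ℝ) ^ (w - 1) :=
    ⟨Nat.find hex, Nat.find_spec hex, fun m hm => Nat.find_min hex hm⟩
  by_cases hN : a * p k ^ 2 + b * p k * q k + c * q k ^ 2 = 0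
  · exact Or.inr ⟨k, hN⟩
  left
  have hqk := G.qpos k
  have h1 : 1 / (q k : ℝ) ^ 2 ≤ |(a : ℝ) * ((p k : ℝ) / q k) ^ 2 + b * ((p k : ℝ) / q k) + c| := by
    rw [G.val_eq, abs_div, abs_of_pos (by positivity : (0 : ℝ) < (q k : ℝ) ^ 2)]
    gcongr
    exact_mod_cast Int.one_le_abs hN
  have h2 := G.lip k a b c H ha hb
  have h3 : 4 * H * (q k : ℝ) ^ (-(w + 1)) ≤ 1 / (2 * (q k : ℝ) ^ 2) := by
    have e : (q k : ℝ) ^ (w - 1) * (q k : ℝ) ^ (-(w + 1)) = 1 / (q k : ℝ) ^ 2 := by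
      rw [← Real.rpow_add hqk, show w - 1 + -(w + 1) = -((2 : ℕ) : ℝ) by push_cast; ring,
        Real.rpow_neg hqk.le, Real.rpow_natCast, one_div]
    have h5 := Real.rpow_pos_of_pos hqk (-(w + 1))
    have : 8 * H * (q k : ℝ) ^ (-(w + 1)) ≤ 1 / (q k : ℝ) ^ 2 := by
      rw [← e]; exact mul_le_mul_of_nonneg_right hk h5.le
    have e2 : 1 / (2 * (q k : ℝ) ^ 2) = (1 / (q k : ℝ) ^ 2) / 2 := by field_simp
    linarith
  have h4 : 1 / (2 * (q k : ℝ) ^ 2) ≤ |(a : ℝ) * ζ ^ 2 + b * ζ + c| := by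
    have e2 : 1 / (2 * (q k : ℝ) ^ 2) = (1 / (q k : ℝ) ^ 2) / 2 := by field_simp
    have := abs_sub_abs_le_abs_sub ((a : ℝ) * ((p k : ℝ) / q k) ^ 2 + b * ((p k : ℝ) / q k) + c)
      ((a : ℝ) * ζ ^ 2 + b * ζ + c)
    linarith
  refine le_trans ?_ h4
  have hHw : 1 ≤ H ^ w := Real.one_le_rpow hH (by linarith)
  have h8w : (1 : ℝ) ≤ 8 ^ w := Real.one_le_rpow (by norm_num) (by linarith)
  have key : (q k : ℝ) ^ 2 ≤ (25 * 8 ^ w * (q 0 : ℝ) ^ 2) * H ^ w := by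
    rcases k with _ | k
    · have : (1 : ℝ) ≤ 25 * 8 ^ w * H ^ w := by nlinarith
      nlinarith [sq_nonneg (q 0 : ℝ)]
    · have h6 := not_le.1 (hmin k (Nat.lt_succ_self k))
      have hq := G.qpos k
      have h7 : (q k : ℝ) ^ (w * (w - 1)) ≤ (8 * H) ^ w := by
        rw [mul_comm, Real.rpow_mul hq.le]
        exact Real.rpow_le_rpow (Real.rpow_nonneg hq.le _) h6.le (by linarith)
      have h8 : ((q k : ℝ) ^ (w + 1)) ^ 2 ≤ (q k : ℝ) ^ (w * (w - 1)) := by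
        rw [← Real.rpow_natCast, ← Real.rpow_mul hq.le]
        exact Real.rpow_le_rpow_of_exponent_le (G.q1 k) (by push_cast; linarith)
      have h9 : (q (k + 1) : ℝ) ^ 2 ≤ (5 * (q k : ℝ) ^ (w + 1)) ^ 2 :=
        pow_le_pow_left₀ hqk.le (G.hi k) 2
      rw [Real.mul_rpow (by norm_num) (by linarith)] at h7
      have h10 : (1 : ℝ) ≤ (q 0 : ℝ) ^ 2 := one_le_pow₀ hq0
      have h11 : 0 ≤ 25 * 8 ^ w * H ^ w := by positivity
      nlinarith
  rw [Real.rpow_neg (by linarith), ← div_eq_mul_inv, div_div]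
  exact one_div_le_one_div_of_le (by positivity) (by nlinarith)

theorem linear (G : Good w ζ p q) (hw : 3 ≤ w) (hw2 : 2 * (w + 1) ≤ w * (w - 1)) :
    ∃ c1 : ℝ, 0 < c1 ∧ ∀ (a b : ℤ) (H : ℝ), 1 ≤ H → |(a : ℝ)| ≤ H → (a ≠ 0 ∨ b ≠ 0) →
      c1 * H ^ (-w) ≤ |(a : ℝ) * ζ + b| := by
  obtain ⟨c0, hc0, h⟩ := G.generic hw hw2
  refine ⟨min c0 (1 / 5), by positivity, ?_⟩
  intro a b H hH ha hab
  have hHw : 0 < H ^ (-w) := Real.rpow_pos_of_pos (by linarith) _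
  rcases h 0 a b H hH (by simp; linarith) ha with h1 | ⟨k, hk⟩
  · have : min c0 (1 / 5) * H ^ (-w) ≤ c0 * H ^ (-w) := by gcongr; exact min_le_left _ _
    simp only [Int.cast_zero, zero_mul, zero_add] at h1
    linarith
  · have hq : q k ≠ 0 := by linarith [G.q8 k] |> fun h : 0 < q k => h.ne'
    have h2 : a * p k + b * q k = 0 := by
      have : q k * (a * p k + b * q k) = 0 := by linear_combination hk
      exact (mul_eq_zero.1 this).resolve_left hq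
    have h3 : q k ∣ a := by
      refine (G.cop k).symm.dvd_of_dvd_mul_right ⟨-b, by linear_combination h2⟩
    obtain ⟨a', rfl⟩ := h3
    have h4 : b = -(a' * p k) := by
      have : q k * (a' * p k + b) = 0 := by linear_combination h2
      have := (mul_eq_zero.1 this).resolve_left hq
      linarith
    have ha' : a' ≠ 0 := by
      rintro rfl
      simp [h4] at hab
    have ha1 : (1 : ℝ) ≤ |(a' : ℝ)| := by exact_mod_cast Int.one_le_abs ha'
    have hqk := G.qpos k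
    have h5 : (q k : ℝ) ≤ H := by
      push_cast at ha
      rw [abs_mul, abs_of_pos hqk] at ha
      nlinarith
    have h6 : H ^ (-w) ≤ (q k : ℝ) ^ (-w) :=
      Real.rpow_le_rpow_of_nonpos hqk h5 (by linarith)
    have h7 := G.eta_ge k
    have e : ((q k * a' : ℤ) : ℝ) * ζ + b = -((a' : ℝ) * ((p k : ℝ) - q k * ζ)) := by
      rw [h4]; push_cast; ring
    have h8 : 0 < (p k : ℝ) - q k * ζ := by linarith
    rw [e, abs_neg, abs_mul, abs_of_pos h8]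
    have : min c0 (1 / 5) * H ^ (-w) ≤ (1 / 5) * H ^ (-w) := by gcongr; exact min_le_right _ _
    nlinarith

theorem quad (G : Good w ζ p q) (hw : 3 ≤ w) (hw2 : 2 * (w + 1) ≤ w * (w - 1)) :
    ∃ c2 : ℝ, 0 < c2 ∧ ∀ (a b c : ℤ) (H : ℝ), 1 ≤ H → |(a : ℝ)| ≤ H → |(b : ℝ)| ≤ H →
      (a ≠ 0 ∨ b ≠ 0 ∨ c ≠ 0) → c2 * H ^ (-w) ≤ |(a : ℝ) * ζ ^ 2 + b * ζ + c| := by
  obtain ⟨c0, hc0, h⟩ := G.generic hw hw2
  obtain ⟨c1, hc1, hl⟩ := G.linear hw hw2
  refine ⟨min c0 (c1 / 5), by positivity, ?_⟩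
  intro a b c H hH ha hb habc
  have hHw : 0 < H ^ (-w) := Real.rpow_pos_of_pos (by linarith) _
  rcases h a b c H hH ha hb with h1 | ⟨k, hk⟩
  · have : min c0 (c1 / 5) * H ^ (-w) ≤ c0 * H ^ (-w) := by gcongr; exact min_le_left _ _
    linarith
  · have hq : q k ≠ 0 := by linarith [G.q8 k] |> fun h : 0 < q k => h.ne'
    have hqk := G.qpos k
    have hp : p k ≠ 0 := by
      intro h0
      have h1 := G.lt_x k
      have h2 := G.z0
      rw [h0] at h1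
      simp at h1
      linarith
    have h3 : q k ∣ a :=
      (G.cop k).symm.pow_right.dvd_of_dvd_mul_right (x := q k) (y := a) (z := p k ^ 2)
        ⟨-(b * p k + c * q k), by linear_combination hk⟩
    obtain ⟨a', rfl⟩ := h3
    have h4 : a' * p k ^ 2 + b * p k + c * q k = 0 := by
      have : q k * (a' * p k ^ 2 + b * p k + c * q k) = 0 := by linear_combination hk
      exact (mul_eq_zero.1 this).resolve_left hq
    have h5 : p k ∣ c :=
      (G.cop k).dvd_of_dvd_mul_right ⟨-(a' * p k + b), by linear_combination h4⟩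
    obtain ⟨b', rfl⟩ := h5
    have h6 : b = -(a' * p k) - b' * q k := by
      have : p k * (a' * p k + b + b' * q k) = 0 := by linear_combination h4
      have := (mul_eq_zero.1 this).resolve_left hp
      linarith
    have hab' : a' ≠ 0 ∨ -b' ≠ 0 := by
      by_contra hcon
      push Not at hcon
      obtain ⟨h7, h8⟩ := hcon
      have h9 : b' = 0 := by linarith
      simp [h6, h7, h9] at habc
    have e : ((q k * a' : ℤ) : ℝ) * ζ ^ 2 + b * ζ + ((p k * b' : ℤ) : ℝ) =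
        -(((p k : ℝ) - q k * ζ) * ((a' : ℝ) * ζ + ((-b' : ℤ) : ℝ))) := by
      rw [h6]; push_cast; ring
    have hH' : 1 ≤ H / q k ∧ |(a' : ℝ)| ≤ H / q k := by
      have hA : |(a' : ℝ)| ≤ H / q k := by
        push_cast at ha
        rw [abs_mul, abs_of_pos hqk] at ha
        rw [le_div_iff₀ hqk]; linarith
      refine ⟨?_, hA⟩
      by_cases ha' : a' = 0
      · have hb' : b' ≠ 0 := by
          rintro rfl
          simp [ha'] at hab'
        have hb1 : (1 : ℝ) ≤ |(b' : ℝ)| := by exact_mod_cast Int.one_le_abs hb'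
        rw [h6, ha'] at hb
        push_cast at hb
        rw [zero_mul, neg_zero, zero_sub, abs_neg, abs_mul, abs_of_pos hqk] at hb
        rw [le_div_iff₀ hqk]; nlinarith
      · have ha1 : (1 : ℝ) ≤ |(a' : ℝ)| := by exact_mod_cast Int.one_le_abs ha'
        linarith
    have h7 := hl a' (-b') (H / q k) hH'.1 hH'.2 hab'
    have h8 := G.eta_ge k
    have h9 : 0 < (q k : ℝ) ^ (-w) := Real.rpow_pos_of_pos hqk _
    have h10 : (q k : ℝ) ^ (-w) * (H / q k) ^ (-w) = H ^ (-w) := by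
      rw [← Real.mul_rpow hqk.le (by linarith [hH'.1])]
      congr 1; field_simp
    rw [e, abs_neg, abs_mul, abs_of_pos (by linarith : 0 < (p k : ℝ) - q k * ζ)]
    have h11 : 0 < (H / q k) ^ (-w) := Real.rpow_pos_of_pos (by linarith [hH'.1]) _
    calc min c0 (c1 / 5) * H ^ (-w) ≤ (c1 / 5) * H ^ (-w) := by gcongr; exact min_le_right _ _
      _ = ((q k : ℝ) ^ (-w) / 5) * (c1 * (H / q k) ^ (-w)) := by rw [← h10]; ring
      _ ≤ _ := mul_le_mul h8 h7 (by positivity) (by linarith)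

end Good

end Pool.Agent.H.MP_1639aa_nt
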