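import Pool.Agent.H.MP_1639aa_nt.Core

set_option autoImplicit false

namespace Pool.Agent.H.MP_1639aa_nt

open Filter

variable {w ζ : ℝ} {p q : ℕ → ℤ}

namespace Good

theorem exists_b (G : Good w ζ p q) (k : ℕ) (s : ℤ) :
    ∃ b c : ℤ, q k ≤ b ∧ b < 2 * q k ∧ b * p k + c * q k = s := by
  obtain ⟨x, y, h⟩ := G.cop k
  have hq : 0 < q k := by linarith [G.q8 k]
  refine ⟨s * x % q k + q k, s * y + (s * x / q k - 1) * p k, ?_, ?_, ?_⟩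
  · linarith [Int.emod_nonneg (s * x) hq.ne']
  · linarith [Int.emod_lt_of_pos (s * x) hq]
  · have h2 := Int.emod_add_mul_ediv (s * x) (q k)
    linear_combination s * h + p k * h2

theorem lower (G : Good w ζ p q) (hw : 3 ≤ w) (hw2 : 2 * (w + 1) ≤ w * (w - 1)) (ρ : ℝ)
    (h0 : 0 ≤ ρ) (h1 : ρ ≤ 1)
    (R1 : ∀ k, ∃ R s : ℤ, p k ^ 2 = R + q k * s ∧ 1 ≤ R ∧ (R : ℝ) ≤ (q k : ℝ) ^ ρ) :
    ∀ X : ℝ, 2 * (q 0 : ℝ) ≤ X → ∃ b c : ℤ, 8 ≤ b ∧ (b : ℝ) ≤ X ∧ 0 ≤ ζ ^ 2 + b * ζ + c ∧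
      ζ ^ 2 + b * ζ + c ≤ 1 ∧ ζ ^ 2 + b * ζ + c ≤
        2 * 10 ^ ((2 - ρ) / (w - 1 + ρ)) * X ^ (-((2 - ρ) / (w - 1 + ρ))) := by
  intro X hX
  set u := (2 - ρ) / (w - 1 + ρ) with hu
  have hden : 0 < w - 1 + ρ := by linarith
  have hu0 : 0 ≤ u := div_nonneg (by linarith) hden.le
  have hu1 : (w - 1 + ρ) * u = 2 - ρ := by rw [hu]; field_simp
  have hu2 : (w + 1) * u ≤ w := by
    rw [hu, ← mul_div_assoc, div_le_iff₀ hden]; nlinarith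
  have hXpos : 0 < X := by linarith [G.qpos 0]
  have hex : ∃ k, X < 2 * (q (k + 1) : ℝ) := by
    obtain ⟨k, hk⟩ := exists_nat_gt X
    refine ⟨k, ?_⟩
    have := G.q_ge hw (k + 1)
    push_cast at this
    linarith [G.qpos (k + 1)]
  classical
  obtain ⟨k, hk, hk2⟩ : ∃ k, X < 2 * (q (k + 1) : ℝ) ∧ 2 * (q k : ℝ) ≤ X := by
    refine ⟨Nat.find hex, Nat.find_spec hex, ?_⟩
    rcases h : Nat.find hex with _ | m
    · exact hX
    · exact not_lt.1 (Nat.find_min hex (by omega : m < Nat.find hex))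
  obtain ⟨R, s, hR, hR1, hR2⟩ := R1 k
  obtain ⟨b, c, hb1, hb2, hbc⟩ := G.exists_b k (-s)
  have hqk := G.qpos k
  have hq8 := G.qR k
  have hv : ((p k : ℝ) / q k) ^ 2 + b * ((p k : ℝ) / q k) + c = (R : ℝ) / (q k : ℝ) ^ 2 := by
    have := G.val_eq k 1 b c
    rw [show 1 * p k ^ 2 + b * p k * q k + c * q k ^ 2 = R by
      linear_combination hR + q k * hbc] at this
    simpa using this
  have hb1R : (q k : ℝ) ≤ b := by exact_mod_cast hb1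
  have hb2R : (b : ℝ) ≤ 2 * q k := by exact_mod_cast hb2.le
  have hR1R : (1 : ℝ) ≤ R := by exact_mod_cast hR1
  have hx0 := G.lt_x k
  have hx1 := G.x1 k
  have hz := G.z0
  have ha2 := G.a2 k
  have hq4 := G.q4 hw k
  set x := (p k : ℝ) / q k with hx
  set e := ζ ^ 2 + b * ζ + c with he
  have e1 : e = (R : ℝ) / (q k : ℝ) ^ 2 - (x - ζ) * (x + ζ + b) := by rw [← hv, he]; ring
  have hpos : 0 ≤ (x - ζ) * (x + ζ + b) := mul_nonneg (by linarith) (by linarith)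
  have he0 : 0 ≤ e := by
    have h2 : x - ζ ≤ 2 / (q k : ℝ) ^ 4 :=
      ha2.trans (div_le_div_of_nonneg_left (by norm_num) (by positivity) hq4)
    have h3 : (x - ζ) * (x + ζ + b) ≤ (2 / (q k : ℝ) ^ 4) * (1 + 2 * q k) :=
      mul_le_mul h2 (by linarith) (by linarith) (by positivity)
    have h4 : (2 / (q k : ℝ) ^ 4) * (1 + 2 * q k) ≤ 1 / (q k : ℝ) ^ 2 := by
      rw [div_mul_eq_mul_div, div_le_div_iff₀ (by positivity) (by positivity)]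
      have : 2 * (1 + 2 * (q k : ℝ)) ≤ (q k : ℝ) ^ 2 := by nlinarith
      nlinarith [sq_nonneg (q k : ℝ)]
    have h5 : 1 / (q k : ℝ) ^ 2 ≤ (R : ℝ) / (q k : ℝ) ^ 2 := by gcongr
    linarith
  have he1 : e ≤ (q k : ℝ) ^ (ρ - 2) := by
    have h2 : (q k : ℝ) ^ (ρ - 2) = (q k : ℝ) ^ ρ / (q k : ℝ) ^ 2 := by
      rw [Real.rpow_sub hqk, ← Real.rpow_natCast]; norm_num
    have h5 : (R : ℝ) / (q k : ℝ) ^ 2 ≤ (q k : ℝ) ^ ρ / (q k : ℝ) ^ 2 := by gcongr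
    linarith
  have hle1 : (q k : ℝ) ^ (ρ - 2) ≤ 1 :=
    Real.rpow_le_one_of_one_le_of_nonpos (G.q1 k) (by linarith)
  have hXu : 0 < X ^ u := Real.rpow_pos_of_pos hXpos u
  have fin : ∀ y : ℝ, y * X ^ u ≤ 2 * 10 ^ u → y ≤ 2 * 10 ^ u * X ^ (-u) := by
    intro y hy
    rw [Real.rpow_neg hXpos.le, ← div_eq_mul_inv, le_div_iff₀ hXu]; exact hy
  have h10 : (0 : ℝ) < 10 ^ u := by positivity
  by_cases hc : X ≤ 7 * (q k : ℝ) ^ (w - 1 + ρ)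
  · refine ⟨b, c, by linarith [G.q8 k], by linarith, he0, by linarith, fin _ ?_⟩
    have h2 : X ^ u ≤ 10 ^ u * (q k : ℝ) ^ (2 - ρ) := by
      rw [← hu1, Real.rpow_mul hqk.le,
        ← Real.mul_rpow (by norm_num) (Real.rpow_nonneg hqk.le _)]
      refine Real.rpow_le_rpow hXpos.le ?_ hu0
      linarith [Real.rpow_pos_of_pos hqk (w - 1 + ρ)]
    have h3 : (q k : ℝ) ^ (ρ - 2) * (q k : ℝ) ^ (2 - ρ) = 1 := by
      rw [← Real.rpow_add hqk]; simp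
    calc e * X ^ u ≤ (q k : ℝ) ^ (ρ - 2) * (10 ^ u * (q k : ℝ) ^ (2 - ρ)) :=
          mul_le_mul he1 h2 hXu.le (Real.rpow_nonneg hqk.le _)
      _ = 10 ^ u := by rw [mul_left_comm, h3, mul_one]
      _ ≤ _ := by linarith
  · push Not at hc
    have h7 := G.eta_ge k
    have h8 := G.eta_le k
    have h9 : 0 < (q k : ℝ) ^ (-w) := Real.rpow_pos_of_pos hqk _
    set η := (p k : ℝ) - q k * ζ with hη
    have hη0 : 0 < η := by linarith
    set m := ⌊e / η⌋ with hm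
    have hm0 : 0 ≤ m := Int.floor_nonneg.2 (div_nonneg he0 hη0.le)
    have hm1 : (m : ℝ) * η ≤ e := by
      rw [← le_div_iff₀ hη0]; exact Int.floor_le _
    have hm2 : e < (m + 1) * η := by
      rw [← div_lt_iff₀ hη0]; exact Int.lt_floor_add_one _
    have ee : ζ ^ 2 + ((b + m * q k : ℤ) : ℝ) * ζ + ((c - m * p k : ℤ) : ℝ) = e - m * η := by
      rw [he, hη]; push_cast; ring
    have hm0R : (0 : ℝ) ≤ m := by exact_mod_cast hm0
    have hmq : (m : ℝ) * q k ≤ 5 * (q k : ℝ) ^ (w - 1 + ρ) := by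
      have h2 : (q k : ℝ) ^ (w - 1 + ρ) * (q k : ℝ) ^ (-w) = (q k : ℝ) ^ (ρ - 2) * q k := by
        rw [← Real.rpow_add hqk, ← Real.rpow_add_one hqk.ne']; congr 1; ring
      have h3 : (m : ℝ) * ((q k : ℝ) ^ (-w) / 5) ≤ (q k : ℝ) ^ (ρ - 2) :=
        (mul_le_mul_of_nonneg_left h7 hm0R).trans (hm1.trans he1)
      have h4 : (m : ℝ) * q k * (q k : ℝ) ^ (-w) ≤
          5 * (q k : ℝ) ^ (w - 1 + ρ) * (q k : ℝ) ^ (-w) := by
        rw [mul_assoc 5, h2]; nlinarith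
      exact le_of_mul_le_mul_right h4 h9
    have hqq : (q k : ℝ) ≤ (q k : ℝ) ^ (w - 1 + ρ) := by
      have := Real.rpow_le_rpow_of_exponent_le (G.q1 k) (by linarith : (1 : ℝ) ≤ w - 1 + ρ)
      rwa [Real.rpow_one] at this
    refine ⟨b + m * q k, c - m * p k, ?_, ?_, ?_, ?_, fin _ ?_⟩
    · nlinarith [G.q8 k]
    · push_cast; linarith
    · rw [ee]; linarith
    · rw [ee]; nlinarith
    · rw [ee]
      have h2 : X ^ u ≤ 10 ^ u * (q k : ℝ) ^ w := by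
        have h3 : X ^ u ≤ (10 * (q k : ℝ) ^ (w + 1)) ^ u :=
          Real.rpow_le_rpow hXpos.le (by linarith [G.hi k]) hu0
        rw [Real.mul_rpow (by norm_num) (Real.rpow_nonneg hqk.le _),
          ← Real.rpow_mul hqk.le] at h3
        exact h3.trans (mul_le_mul_of_nonneg_left
          (Real.rpow_le_rpow_of_exponent_le (G.q1 k) hu2) h10.le)
      have h3 : (q k : ℝ) ^ (-w) * (q k : ℝ) ^ w = 1 := by
        rw [← Real.rpow_add hqk]; simp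
      calc (e - m * η) * X ^ u ≤ (2 * (q k : ℝ) ^ (-w)) * (10 ^ u * (q k : ℝ) ^ w) :=
            mul_le_mul (by linarith) h2 hXu.le (by linarith)
        _ = 2 * 10 ^ u * ((q k : ℝ) ^ (-w) * (q k : ℝ) ^ w) := by ring
        _ = _ := by rw [h3, mul_one]

theorem upper (G : Good w ζ p q) (ρ : ℝ) (h1 : ρ ≤ 1) (k : ℕ)
    (R2 : ∀ s : ℤ, (q k : ℝ) ^ ρ / 8 ≤ |((p k ^ 2 + q k * s : ℤ) : ℝ)|) (a b c : ℤ)
    (habc : a = 1 ∨ (a = 0 ∧ b = 1) ∨ (a = 0 ∧ b = 0 ∧ c = 1))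
    (ha : |(a : ℝ)| ≤ (q k : ℝ) ^ (w - 1 + ρ) / 64)
    (hb : |(b : ℝ)| ≤ (q k : ℝ) ^ (w - 1 + ρ) / 64) :
    (q k : ℝ) ^ (ρ - 2) / 16 ≤ |(a : ℝ) * ζ ^ 2 + b * ζ + c| := by
  have hqk := G.qpos k
  have h2 := G.lip k a b c _ ha hb
  have h3 : (q k : ℝ) ^ (w - 1 + ρ) * (q k : ℝ) ^ (-(w + 1)) = (q k : ℝ) ^ (ρ - 2) := by
    rw [← Real.rpow_add hqk]; congr 1; ring
  have hle1 : (q k : ℝ) ^ (ρ - 2) ≤ 1 :=
    Real.rpow_le_one_of_one_le_of_nonpos (G.q1 k) (by linarith)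
  have h4 : (q k : ℝ) ^ (ρ - 2) / 8 ≤
      |(a : ℝ) * ((p k : ℝ) / q k) ^ 2 + b * ((p k : ℝ) / q k) + c| := by
    rcases habc with rfl | ⟨rfl, rfl⟩ | ⟨rfl, rfl, rfl⟩
    · rw [G.val_eq, abs_div, abs_of_pos (by positivity : (0 : ℝ) < (q k : ℝ) ^ 2)]
      have h5 : (q k : ℝ) ^ (ρ - 2) = (q k : ℝ) ^ ρ / (q k : ℝ) ^ 2 := by
        rw [Real.rpow_sub hqk, ← Real.rpow_natCast]; norm_num
      have h6 := R2 (b * p k + c * q k)
      rw [show 1 * p k ^ 2 + b * p k * q k + c * q k ^ 2 = p k ^ 2 + q k * (b * p k + c * q k) by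
        ring, h5, div_right_comm]
      gcongr
    · have hx0 := G.lt_x k
      have hx1 := G.x1 k
      have hz := G.z0
      simp only [Int.cast_zero, zero_mul, zero_add, Int.cast_one, one_mul]
      rcases le_or_gt 0 c with hc | hc
      · have : (0 : ℝ) ≤ c := by exact_mod_cast hc
        rw [abs_of_nonneg (by linarith)]; linarith
      · have : (c : ℝ) ≤ -1 := by exact_mod_cast Int.le_sub_one_of_lt hc
        rw [abs_of_nonpos (by linarith)]; linarith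
    · simp; linarith
  have := abs_sub_abs_le_abs_sub ((a : ℝ) * ((p k : ℝ) / q k) ^ 2 + b * ((p k : ℝ) / q k) + c)
      ((a : ℝ) * ζ ^ 2 + b * ζ + c)
  nlinarith

end Good

/-- A small root shift. -/
theorem exists_root (B e : ℝ) (hB : 2 ≤ B) (he0 : 0 ≤ e) (he1 : e ≤ 1) :
    ∃ δ : ℝ, δ ^ 2 + B * δ + e = 0 ∧ |δ| * B ≤ 2 * e := by
  have hd : 0 ≤ B ^ 2 - 4 * e := by nlinarith
  have hs := Real.sq_sqrt hd
  have hs0 := Real.sqrt_nonneg (B ^ 2 - 4 * e)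
  set s := √(B ^ 2 - 4 * e)
  have hsB : s ≤ B := by nlinarith
  refine ⟨(-B + s) / 2, by nlinarith, ?_⟩
  rw [abs_of_nonpos (by linarith)]
  nlinarith

end Pool.Agent.H.MP_1639aa_nt
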